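import Mathlib
import Pool.Agent.Helper205.BohrA
import Pool.Agent.Helper156.Ess.H2

set_option autoImplicit false

open Complex Metric Filter Topology MeasureTheory
open scoped ComplexConjugate
open Pool.Agent.Helper205.Bohr
open Pool.Agent.Helper156.Ess (mT)

namespace Pool.Agent.H422Bohr

lemma cm_norm {R : ℝ} (h0 : 0 ≤ R) (θ : ℝ) : ‖circleMap 0 R θ‖ = R := by
  rw [norm_circleMap_zero, abs_of_nonneg h0]

/-- Parseval on the circle of radius `R`. -/
lemma mean_sq {F : ℂ → ℂ} {a : ℕ → ℂ} (h : PS F a) {R : ℝ} (h0 : 0 ≤ R) (h1 : R < 1) :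
    ∫ θ : ℝ, ‖F (circleMap 0 R θ)‖ ^ 2 ∂mT = ∑' k, ‖a k‖ ^ 2 * (R ^ 2) ^ k := by
  have e := Pool.Agent.Helper156.Ess.parseval_power a h0 (h.summable_norm_mul R h0 h1)
  have e1 : ∀ θ : ℝ, F (circleMap 0 R θ) = ∑' k : ℕ, a k * (circleMap 0 R θ) ^ k := by
    intro θ
    exact (h _ (by rw [cm_norm h0]; exact h1)).tsum_eq.symm
  simp only [e1, e]
  congr 1
  funext k
  rw [pow_mul]

lemma sq_summable {F : ℂ → ℂ} {a : ℕ → ℂ} (h : PS F a) {t : ℝ} (h0 : 0 ≤ t) (h1 : t < 1) :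
    Summable fun k => ‖a k‖ ^ 2 * t ^ k := by
  -- `‖a k‖ √t^k` is summable, hence its square is
  have hs : Summable fun k => ‖a k‖ * (Real.sqrt t) ^ k := by
    apply h.summable_norm_mul _ (Real.sqrt_nonneg t)
    rw [Real.sqrt_lt' one_pos]
    simpa using h1
  have h3 : Summable fun k : ℕ => (‖a k‖ * (Real.sqrt t) ^ k) ^ 2 := by
    obtain ⟨B, hB⟩ := hs.tendsto_atTop_zero.bddAbove_range
    apply Summable.of_nonneg_of_le (fun k => by positivity) (fun k => ?_) (hs.mul_left B)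
    rw [sq]
    exact mul_le_mul_of_nonneg_right (hB ⟨k, rfl⟩) (by positivity)
  refine h3.congr fun k => ?_
  rw [mul_pow, ← pow_mul, mul_comm k 2, pow_mul, Real.sq_sqrt h0]

lemma cont_circle {F : ℂ → ℂ} (hF : DifferentiableOn ℂ F (ball 0 1)) {R : ℝ} (h0 : 0 ≤ R)
    (h1 : R < 1) : Continuous fun θ : ℝ => F (circleMap 0 R θ) := by
  apply hF.continuousOn.comp_continuous (continuous_circleMap 0 R)
  intro θ
  rw [mem_ball_zero_iff, cm_norm h0]
  exact h1

lemma integrable_mT {f : ℝ → ℝ} (hf : Continuous f) : Integrable f mT := by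
  unfold mT
  apply Integrable.smul_measure
  · exact (hf.integrableOn_Icc (a := 0) (b := 2 * Real.pi)).mono_set Set.Ioc_subset_Icc_self
  · exact ENNReal.inv_ne_top.2 Pool.Agent.Helper156.Ess.ofReal_two_pi_ne_zero

/-- mean value property -/
lemma mean_val {F : ℂ → ℂ} (hF : DifferentiableOn ℂ F (ball 0 1)) {R : ℝ} (h0 : 0 ≤ R)
    (h1 : R < 1) : ∫ θ : ℝ, F (circleMap 0 R θ) ∂mT = F 0 := by
  rw [Pool.Agent.Helper156.Ess.integral_mT_circle]
  have hd : DiffContOnCl ℂ F (ball 0 |R|) := by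
    rw [abs_of_nonneg h0]
    apply (hF.mono ?_).diffContOnCl_ball subset_rfl
    exact closedBall_subset_ball h1
  exact hd.circleAverage

lemma mean_re {F : ℂ → ℂ} (hF : DifferentiableOn ℂ F (ball 0 1)) {R : ℝ} (h0 : 0 ≤ R)
    (h1 : R < 1) (c : ℂ) : ∫ θ : ℝ, (conj c * F (circleMap 0 R θ)).re ∂mT = (conj c * F 0).re := by
  have hc := cont_circle hF h0 h1
  have hi : Integrable (fun θ : ℝ => conj c * F (circleMap 0 R θ)) mT := by
    unfold mT
    apply Integrable.smul_measure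
    · exact ((continuous_const.mul hc).integrableOn_Icc (a := 0) (b := 2 * Real.pi)).mono_set
        Set.Ioc_subset_Icc_self
    · exact ENNReal.inv_ne_top.2 Pool.Agent.Helper156.Ess.ofReal_two_pi_ne_zero
  have h2 := integral_re hi
  have h3 : ∫ θ : ℝ, conj c * F (circleMap 0 R θ) ∂mT = conj c * F 0 := by
    rw [integral_const_mul, mean_val hF h0 h1]
  rw [h3] at h2
  exact h2

/-- Schwarz-Pick at the origin, for `|φ| ≤ 1` on the open disc. -/
lemma schwarz_pick {φ : ℂ → ℂ} (hd : DifferentiableOn ℂ φ (ball 0 1))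
    (hb : ∀ z : ℂ, ‖z‖ < 1 → ‖φ z‖ ≤ 1) {z : ℂ} (hz : ‖z‖ < 1) :
    ‖φ z - φ 0‖ ≤ ‖z‖ * ‖1 - conj (φ 0) * φ z‖ := by
  rcases lt_or_eq_of_le (hb 0 (by simp)) with h1 | h1
  · have hne : ∀ w : ℂ, ‖w‖ < 1 → 1 - conj (φ 0) * φ w ≠ 0 := by
      intro w hw h
      have h2 : ‖conj (φ 0) * φ w‖ < 1 := by
        rw [norm_mul, RCLike.norm_conj]
        calc ‖φ 0‖ * ‖φ w‖ ≤ ‖φ 0‖ * 1 := mul_le_mul_of_nonneg_left (hb w hw) (norm_nonneg _)
          _ < 1 := by rw [mul_one]; exact h1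
      have h3 : conj (φ 0) * φ w = 1 := (sub_eq_zero.1 h).symm
      rw [h3] at h2
      simp at h2
    set ψ : ℂ → ℂ := fun w => (φ w - φ 0) / (1 - conj (φ 0) * φ w) with hψ
    have hψd : DifferentiableOn ℂ ψ (ball 0 1) := by
      apply DifferentiableOn.div (hd.sub_const _) ((differentiableOn_const _).sub
        ((differentiableOn_const _).mul hd))
      intro w hw
      exact hne w (by simpa using hw)
    have hψ0 : ψ 0 = 0 := by simp [hψ]
    have hψb : Set.MapsTo ψ (ball 0 1) (closedBall 0 1) := by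
      intro w hw
      have hw' : ‖w‖ < 1 := by simpa using hw
      rw [mem_closedBall_zero_iff, hψ]
      simp only
      rw [norm_div, div_le_one (norm_pos_iff.2 (hne w hw'))]
      rw [← sq_le_sq₀ (norm_nonneg _) (norm_nonneg _), ← Complex.normSq_eq_norm_sq,
        ← Complex.normSq_eq_norm_sq]
      have h2 : Complex.normSq (φ w) ≤ 1 := by
        rw [Complex.normSq_eq_norm_sq]
        have := hb w hw'
        have := norm_nonneg (φ w)
        nlinarith
      have h3 : Complex.normSq (φ 0) ≤ 1 := by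
        rw [Complex.normSq_eq_norm_sq]
        have := norm_nonneg (φ 0)
        nlinarith
      rw [Complex.normSq_apply] at h2 h3 ⊢
      rw [Complex.normSq_apply]
      simp only [Complex.sub_re, Complex.sub_im, Complex.one_re, Complex.one_im, Complex.mul_re,
        Complex.mul_im, Complex.conj_re, Complex.conj_im]
      nlinarith [mul_nonneg (sub_nonneg.2 h2) (sub_nonneg.2 h3)]
    have h4 := Complex.norm_le_norm_of_mapsTo_ball hψd hψb hψ0 hz
    rw [hψ] at h4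
    simp only [norm_div] at h4
    rwa [div_le_iff₀ (norm_pos_iff.2 (hne z hz))] at h4
  · -- constant
    have hmax : IsMaxOn (norm ∘ φ) (ball 0 1) 0 := by
      intro w hw
      simp only [Set.mem_ofPred_eq, Function.comp_apply, h1]
      exact hb w (by simpa using hw)
    have h2 := Complex.eqOn_of_isPreconnected_of_isMaxOn_norm
      (convex_ball (0 : ℂ) 1).isPreconnected isOpen_ball hd (mem_ball_self one_pos) hmax
    have h3 : φ z = φ 0 := h2 (by simpa using hz)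
    rw [h3, sub_self, norm_zero]
    positivity

/-- the linear inequality behind Lemma C -/
lemma lin_ineq {φ : ℂ → ℂ} (hd : DifferentiableOn ℂ φ (ball 0 1))
    (hb : ∀ z : ℂ, ‖z‖ < 1 → ‖φ z‖ ≤ 1) {z : ℂ} (hz : ‖z‖ < 1) :
    (1 - ‖z‖ ^ 2 * ‖φ 0‖ ^ 2) * ‖φ z‖ ^ 2 ≤ ‖z‖ ^ 2 - ‖φ 0‖ ^ 2
      + 2 * (1 - ‖z‖ ^ 2) * (conj (φ 0) * φ z).re := by
  have h := schwarz_pick hd hb hz
  have h2 : ‖φ z - φ 0‖ ^ 2 ≤ ‖z‖ ^ 2 * ‖1 - conj (φ 0) * φ z‖ ^ 2 := by
    rw [← mul_pow]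
    exact pow_le_pow_left₀ (norm_nonneg _) h 2
  rw [← Complex.normSq_eq_norm_sq (φ z - φ 0),
    ← Complex.normSq_eq_norm_sq (1 - conj (φ 0) * φ z)] at h2
  rw [← Complex.normSq_eq_norm_sq (φ z), ← Complex.normSq_eq_norm_sq (φ 0)]
  set s := ‖z‖ ^ 2
  rw [Complex.normSq_apply] at h2 ⊢
  rw [Complex.normSq_apply] at h2 ⊢
  simp only [Complex.sub_re, Complex.sub_im, Complex.one_re, Complex.one_im, Complex.mul_re,
    Complex.mul_im, Complex.conj_re, Complex.conj_im] at h2 ⊢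
  nlinarith [h2]

/-- Lemma C -/
lemma lemC {φ : ℂ → ℂ} {c : ℕ → ℂ} (h : PS φ c) (hb : ∀ z : ℂ, ‖z‖ < 1 → ‖φ z‖ ≤ 1) {t : ℝ}
    (h0 : 0 ≤ t) (h1 : t < 1) :
    (1 - t * ‖c 0‖ ^ 2) * ∑' m, ‖c (m + 1)‖ ^ 2 * t ^ (m + 1) ≤ t * (1 - ‖c 0‖ ^ 2) ^ 2 := by
  set R := Real.sqrt t with hR
  have hR0 : 0 ≤ R := Real.sqrt_nonneg t
  have hR1 : R < 1 := by
    rw [hR, Real.sqrt_lt' one_pos]
    simpa using h1
  have hR2 : R ^ 2 = t := Real.sq_sqrt h0
  have hd := h.differentiableOn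
  have hc0 : φ 0 = c 0 := by
    have e := (h 0 (by simp)).tsum_eq
    rw [← e, tsum_eq_single 0]
    · simp
    · intro n hn
      simp [hn]
  have hcont := cont_circle hd hR0 hR1
  have hc1 : Continuous fun θ : ℝ => (1 - t * ‖c 0‖ ^ 2) * ‖φ (circleMap 0 R θ)‖ ^ 2 :=
    continuous_const.mul (hcont.norm.pow 2)
  have hc2 : Continuous fun θ : ℝ => 2 * (1 - t) * (conj (φ 0) * φ (circleMap 0 R θ)).re :=
    continuous_const.mul (Complex.continuous_re.comp (continuous_const.mul hcont))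
  have hint : ∫ θ : ℝ, (1 - t * ‖c 0‖ ^ 2) * ‖φ (circleMap 0 R θ)‖ ^ 2 ∂mT ≤
      ∫ θ : ℝ, (t - ‖c 0‖ ^ 2 + 2 * (1 - t) * (conj (φ 0) * φ (circleMap 0 R θ)).re) ∂mT := by
    apply integral_mono
    · exact integrable_mT hc1
    · exact integrable_mT (continuous_const.add hc2)
    · intro θ
      have := lin_ineq hd hb (z := circleMap 0 R θ) (by rw [cm_norm hR0]; exact hR1)
      rw [cm_norm hR0, hR2, hc0] at this
      simp only [hc0]
      exact this
  rw [integral_const_mul, mean_sq h hR0 hR1, hR2] at hint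
  rw [integral_add (integrable_mT continuous_const) (integrable_mT hc2),
    integral_const_mul, mean_re hd hR0 hR1, integral_const] at hint
  have hs := sq_summable h h0 h1
  rw [hs.tsum_eq_zero_add] at hint
  have e1 : (conj (φ 0) * φ 0).re = ‖c 0‖ ^ 2 := by
    rw [hc0, ← Complex.normSq_eq_norm_sq, ← Complex.normSq_eq_conj_mul_self]
    simp
  rw [e1] at hint
  simp only [pow_zero, mul_one] at hint
  have e2 : (mT.real Set.univ) = 1 := by simp
  rw [e2] at hint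
  simp only [one_smul] at hint
  nlinarith [hint]

end Pool.Agent.H422Bohr
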