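import Mathlib
import Pool.Agent.H422Bohr.Mean

set_option autoImplicit false

open Complex Metric Filter Topology MeasureTheory
open scoped ComplexConjugate
open Pool.Agent.Helper205.Bohr
open Pool.Agent.Helper156.Ess (mT)

namespace Pool.Agent.H422Bohr

/-- If a real power series is nonnegative on `[0,1)`, so is its averaged series. -/
lemma avg_series {c : ℕ → ℝ} (hs : ∀ t : ℝ, 0 ≤ t → t < 1 → Summable fun m => |c m| * t ^ m)
    (hp : ∀ t : ℝ, 0 ≤ t → t < 1 → 0 ≤ ∑' m, c m * t ^ m) {t : ℝ} (h0 : 0 ≤ t) (h1 : t < 1) :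
    0 ≤ ∑' m, c m / (m + 1) * t ^ m := by
  rcases h0.eq_or_lt with h | h
  · have := hp t h0 h1
    subst h
    rw [tsum_eq_single 0] at this ⊢
    · simpa using this
    · intro n hn; simp [hn]
    · intro n hn; simp [hn]
  have key : HasSum (fun m : ℕ => ∫ x in (0:ℝ)..t, c m * x ^ m)
      (∫ x in (0:ℝ)..t, ∑' m : ℕ, c m * x ^ m) := by
    apply intervalIntegral.hasSum_integral_of_dominated_convergence
      (fun (m : ℕ) (_ : ℝ) => |c m| * t ^ m)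
    · intro m
      apply Continuous.aestronglyMeasurable
      fun_prop
    · intro m
      refine Filter.Eventually.of_forall fun x hx => ?_
      rw [Set.uIoc_of_le h0] at hx
      rw [norm_mul, Real.norm_eq_abs, norm_pow, Real.norm_of_nonneg hx.1.le]
      exact mul_le_mul_of_nonneg_left (pow_le_pow_left₀ hx.1.le hx.2 m) (abs_nonneg _)
    · exact Filter.Eventually.of_forall fun x _ => hs t h0 h1
    · exact intervalIntegrable_const
    · refine Filter.Eventually.of_forall fun x hx => ?_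
      rw [Set.uIoc_of_le h0] at hx
      apply Summable.hasSum
      apply Summable.of_norm
      refine (hs x hx.1.le (hx.2.trans_lt h1)).congr fun m => ?_
      rw [norm_mul, Real.norm_eq_abs, norm_pow, Real.norm_of_nonneg hx.1.le]
  have e1 : ∀ m : ℕ, ∫ x in (0:ℝ)..t, c m * x ^ m = c m / (m + 1) * t ^ m * t := by
    intro m
    rw [intervalIntegral.integral_const_mul, integral_pow]
    simp only [zero_pow (Nat.succ_ne_zero m), sub_zero]
    rw [pow_succ]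
    ring
  simp only [e1] at key
  have h2 : 0 ≤ ∫ x in (0:ℝ)..t, ∑' m : ℕ, c m * x ^ m := by
    apply intervalIntegral.integral_nonneg h0
    intro x hx
    exact hp x hx.1 (hx.2.trans_lt h1)
  rw [← key.tsum_eq, tsum_mul_right] at h2
  exact nonneg_of_mul_nonneg_left h2 h

lemma avg_summable {c : ℕ → ℝ} (hs : ∀ t : ℝ, 0 ≤ t → t < 1 → Summable fun m => |c m| * t ^ m)
    (t : ℝ) (h0 : 0 ≤ t) (h1 : t < 1) : Summable fun m : ℕ => |c m / (m + 1)| * t ^ m := by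
  apply Summable.of_nonneg_of_le (fun m => by positivity) (fun m => ?_) (hs t h0 h1)
  apply mul_le_mul_of_nonneg_right _ (by positivity)
  rw [abs_div]
  apply div_le_self (abs_nonneg _)
  rw [abs_of_nonneg (by positivity)]
  linarith [(Nat.cast_nonneg m : (0:ℝ) ≤ m)]

/-- twice averaged -/
lemma avg_series2 {c : ℕ → ℝ} (hs : ∀ t : ℝ, 0 ≤ t → t < 1 → Summable fun m => |c m| * t ^ m)
    (hp : ∀ t : ℝ, 0 ≤ t → t < 1 → 0 ≤ ∑' m, c m * t ^ m) {t : ℝ} (h0 : 0 ≤ t) (h1 : t < 1) :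
    0 ≤ ∑' m, c m / (m + 1) ^ 2 * t ^ m := by
  have := avg_series (avg_summable hs) (fun t h0 h1 => avg_series hs hp h0 h1) h0 h1
  convert this using 3 with m
  rw [div_div, sq]

lemma ps_zero {F : ℂ → ℂ} {a : ℕ → ℂ} (h : PS F a) : F 0 = a 0 := by
  have e := (h 0 (by simp)).tsum_eq
  rw [← e, tsum_eq_single 0]
  · simp
  · intro n hn
    simp [hn]

/-- the factor coming from Schwarz-Pick -/
lemma pick_factor {ω : ℂ → ℂ} (hd : DifferentiableOn ℂ ω (ball 0 1))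
    (hb : ∀ z : ℂ, ‖z‖ < 1 → ‖ω z‖ ≤ 1) {z : ℂ} (hz : ‖z‖ < 1) :
    (1 - ‖ω 0‖ ^ 2) * (1 - ‖z‖) ≤ (1 - ‖ω z‖ ^ 2) * (1 + ‖z‖) := by
  have h := schwarz_pick hd hb hz
  have h2 : ‖ω z - ω 0‖ ^ 2 ≤ ‖z‖ ^ 2 * ‖1 - conj (ω 0) * ω z‖ ^ 2 := by
    rw [← mul_pow]
    exact pow_le_pow_left₀ (norm_nonneg _) h 2
  have e : ‖1 - conj (ω 0) * ω z‖ ^ 2 - ‖ω z - ω 0‖ ^ 2
      = (1 - ‖ω 0‖ ^ 2) * (1 - ‖ω z‖ ^ 2) := by
    rw [← Complex.normSq_eq_norm_sq, ← Complex.normSq_eq_norm_sq, ← Complex.normSq_eq_norm_sq,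
      ← Complex.normSq_eq_norm_sq]
    simp only [Complex.normSq_apply, Complex.sub_re, Complex.sub_im, Complex.one_re,
      Complex.one_im, Complex.mul_re, Complex.mul_im, Complex.conj_re, Complex.conj_im]
    ring
  set R := ‖z‖ with hR
  set w := ‖ω z‖ with hw
  set b := ‖ω 0‖ with hbb
  have hR0 : 0 ≤ R := norm_nonneg _
  have hw0 : 0 ≤ w := norm_nonneg _
  have hb0 : 0 ≤ b := norm_nonneg _
  have hw1 : w ≤ 1 := hb z hz
  have hb1 : b ≤ 1 := hb 0 (by simp)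
  have h3 : 1 - b * w ≤ ‖1 - conj (ω 0) * ω z‖ := by
    have := norm_sub_norm_le (1 : ℂ) (conj (ω 0) * ω z)
    rw [norm_one, norm_mul, RCLike.norm_conj] at this
    exact this
  have hbw : b * w ≤ 1 := mul_le_one₀ hb1 hw0 hw1
  have h4 : (1 - b * w) ^ 2 ≤ ‖1 - conj (ω 0) * ω z‖ ^ 2 :=
    pow_le_pow_left₀ (by linarith) h3 2
  -- (1 - R^2) (1 - b w)^2 ≤ (1 - b^2)(1 - w^2) = (1-bw)^2 - (w-b)^2
  have h5 : (1 - R ^ 2) * (1 - b * w) ^ 2 ≤ (1 - b ^ 2) * (1 - w ^ 2) := by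
    have h6 : 0 ≤ 1 - R ^ 2 := by nlinarith
    have := mul_le_mul_of_nonneg_left h4 h6
    nlinarith
  have h7 : (w - b) ^ 2 ≤ (R * (1 - b * w)) ^ 2 := by nlinarith
  have h8 : w - b ≤ R * (1 - b * w) :=
    (abs_le_of_sq_le_sq' h7 (mul_nonneg hR0 (by linarith))).2
  -- w (1 + b R) ≤ b + R
  have h9 : w * (1 + b * R) ≤ b + R := by nlinarith
  have h10 : (w * (1 + b * R)) ^ 2 ≤ (b + R) ^ 2 :=
    pow_le_pow_left₀ (by positivity) h9 2
  have h11 : (1 - b ^ 2) * (1 - R ^ 2) ≤ (1 - w ^ 2) * (1 + b * R) ^ 2 := by nlinarith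
  have h12 : (1 + b * R) ^ 2 ≤ (1 + R) ^ 2 := by
    apply pow_le_pow_left₀ (by positivity)
    nlinarith
  have h13 : (1 - w ^ 2) * (1 + b * R) ^ 2 ≤ (1 - w ^ 2) * (1 + R) ^ 2 :=
    mul_le_mul_of_nonneg_left h12 (by nlinarith)
  have h14 : (1 + R) * ((1 - b ^ 2) * (1 - R)) ≤ (1 + R) * ((1 - w ^ 2) * (1 + R)) := by
    nlinarith
  exact le_of_mul_le_mul_left h14 (by linarith)

/-- mean inequality with the Schwarz-Pick factor -/
lemma lemW {ω u v : ℂ → ℂ} {o c d : ℕ → ℂ} (ho : PS ω o) (hu : PS u c) (hv : PS v d)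
    (hvu : ∀ z : ℂ, ‖z‖ < 1 → v z = ω z * u z)
    (hb : ∀ z : ℂ, ‖z‖ < 1 → ‖ω z‖ ≤ 1) {t : ℝ} (h0 : 0 ≤ t) (h1 : t < 1) :
    ∑' m, ‖d m‖ ^ 2 * t ^ m ≤ ∑' m, ‖c m‖ ^ 2 * t ^ m
      - (1 - ‖o 0‖ ^ 2) * ‖c 0‖ ^ 2 * (5 / 9 - 8 / 9 * t) := by
  set R := Real.sqrt t with hR
  have hR0 : 0 ≤ R := Real.sqrt_nonneg t
  have hR1 : R < 1 := by
    rw [hR, Real.sqrt_lt' one_pos]
    simpa using h1
  have hR2 : R ^ 2 = t := Real.sq_sqrt h0
  have hb0 : ‖o 0‖ ≤ 1 := by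
    rw [← ps_zero ho]
    exact hb 0 (by simp)
  have hcu := cont_circle hu.differentiableOn hR0 hR1
  have hcv := cont_circle hv.differentiableOn hR0 hR1
  have hc1 : Continuous fun θ : ℝ => (1 + R) * ‖v (circleMap 0 R θ)‖ ^ 2 :=
    continuous_const.mul (hcv.norm.pow 2)
  have hc2 : Continuous fun θ : ℝ => ((1 + R) - (1 - ‖o 0‖ ^ 2) * (1 - R)) *
      ‖u (circleMap 0 R θ)‖ ^ 2 := continuous_const.mul (hcu.norm.pow 2)
  have hint : ∫ θ : ℝ, (1 + R) * ‖v (circleMap 0 R θ)‖ ^ 2 ∂mT ≤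
      ∫ θ : ℝ, ((1 + R) - (1 - ‖o 0‖ ^ 2) * (1 - R)) * ‖u (circleMap 0 R θ)‖ ^ 2 ∂mT := by
    apply integral_mono
    · exact integrable_mT hc1
    · exact integrable_mT hc2
    · intro θ
      have hz : ‖circleMap 0 R θ‖ < 1 := by rw [cm_norm hR0]; exact hR1
      have h2 := pick_factor ho.differentiableOn hb hz
      rw [cm_norm hR0, ps_zero ho] at h2
      simp only
      rw [hvu _ hz, norm_mul, mul_pow]
      have h3 := mul_le_mul_of_nonneg_right h2 (sq_nonneg ‖u (circleMap 0 R θ)‖)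
      nlinarith
  rw [integral_const_mul, integral_const_mul, mean_sq hv hR0 hR1, mean_sq hu hR0 hR1, hR2] at hint
  have hs := sq_summable hu h0 h1
  have h3 : ‖c 0‖ ^ 2 ≤ ∑' m, ‖c m‖ ^ 2 * t ^ m := by
    have := hs.le_tsum 0 (fun n _ => by positivity)
    simpa using this
  set S := ∑' m, ‖c m‖ ^ 2 * t ^ m
  set T := ∑' m, ‖d m‖ ^ 2 * t ^ m
  have hq : 0 ≤ 1 - ‖o 0‖ ^ 2 := by nlinarith [norm_nonneg (o 0)]
  set q := 1 - ‖o 0‖ ^ 2
  have h4 : q * (1 - R) * ‖c 0‖ ^ 2 ≤ q * (1 - R) * S :=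
    mul_le_mul_of_nonneg_left h3 (mul_nonneg hq (by linarith))
  have h5 : (1 + R) * (5 / 9 - 8 / 9 * t) ≤ 1 - R := by
    rw [← hR2]
    nlinarith [mul_nonneg (sq_nonneg (1 - 2 * R)) (by linarith : (0:ℝ) ≤ 2 + R)]
  have h6 : q * ‖c 0‖ ^ 2 * ((1 + R) * (5 / 9 - 8 / 9 * t)) ≤ q * ‖c 0‖ ^ 2 * (1 - R) :=
    mul_le_mul_of_nonneg_left h5 (by positivity)
  have h7 : (1 + R) * T ≤ (1 + R) * (S - q * ‖c 0‖ ^ 2 * (5 / 9 - 8 / 9 * t)) := by
    nlinarith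
  exact le_of_mul_le_mul_left h7 (by linarith)

/-- the integrated inequality -/
lemma lemWi {ω u v : ℂ → ℂ} {o c d : ℕ → ℂ} (ho : PS ω o) (hu : PS u c) (hv : PS v d)
    (hvu : ∀ z : ℂ, ‖z‖ < 1 → v z = ω z * u z)
    (hb : ∀ z : ℂ, ‖z‖ < 1 → ‖ω z‖ ≤ 1) {t : ℝ} (h0 : 0 ≤ t) (h1 : t < 1) :
    ∑' m : ℕ, ‖d m‖ ^ 2 / (m + 1) ^ 2 * t ^ m ≤ ∑' m : ℕ, ‖c m‖ ^ 2 / (m + 1) ^ 2 * t ^ m
      - (1 - ‖o 0‖ ^ 2) * ‖c 0‖ ^ 2 * (5 / 9 - 2 / 9 * t) := by
  set q := (1 - ‖o 0‖ ^ 2) * ‖c 0‖ ^ 2 with hq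
  -- the sequence
  set e : ℕ → ℝ := fun m => ‖c m‖ ^ 2 - ‖d m‖ ^ 2 - (if m = 0 then q * (5 / 9) else 0)
    + (if m = 1 then q * (8 / 9) else 0) with he
  have hs1 : ∀ t : ℝ, 0 ≤ t → t < 1 → Summable fun m => ‖c m‖ ^ 2 * t ^ m :=
    fun t h0 h1 => sq_summable hu h0 h1
  have hs2 : ∀ t : ℝ, 0 ≤ t → t < 1 → Summable fun m => ‖d m‖ ^ 2 * t ^ m :=
    fun t h0 h1 => sq_summable hv h0 h1
  have hs3 : ∀ t : ℝ, Summable fun m : ℕ => (if m = 0 then q * (5 / 9) else 0) * t ^ m := by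
    intro t
    apply summable_of_ne_finset_zero (s := {0})
    intro b hb
    simp at hb
    simp [hb]
  have hs4 : ∀ t : ℝ, Summable fun m : ℕ => (if m = 1 then q * (8 / 9) else 0) * t ^ m := by
    intro t
    apply summable_of_ne_finset_zero (s := {1})
    intro b hb
    simp at hb
    simp [hb]
  have hsum : ∀ t : ℝ, 0 ≤ t → t < 1 → Summable fun m => e m * t ^ m := by
    intro t h0 h1
    refine (((((hs1 t h0 h1).sub (hs2 t h0 h1)).sub (hs3 t)).add (hs4 t))).congr fun m => ?_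
    simp only [he]
    ring
  have habs : ∀ t : ℝ, 0 ≤ t → t < 1 → Summable fun m => |e m| * t ^ m := by
    intro t h0 h1
    refine ((hsum t h0 h1).norm).congr fun m => ?_
    rw [norm_mul, Real.norm_eq_abs, norm_pow, Real.norm_of_nonneg h0]
  have hval : ∀ t : ℝ, 0 ≤ t → t < 1 → ∑' m, e m * t ^ m =
      ∑' m, ‖c m‖ ^ 2 * t ^ m - ∑' m, ‖d m‖ ^ 2 * t ^ m - q * (5 / 9 - 8 / 9 * t) := by
    intro t h0 h1
    have e3 : ∑' m : ℕ, (if m = 0 then q * (5 / 9) else 0) * t ^ m = q * (5 / 9) := by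
      rw [tsum_eq_single 0]
      · simp
      · intro n hn; simp [hn]
    have e4 : ∑' m : ℕ, (if m = 1 then q * (8 / 9) else 0) * t ^ m = q * (8 / 9) * t := by
      rw [tsum_eq_single 1]
      · simp
      · intro n hn; simp [hn]
    have := ((((hs1 t h0 h1).hasSum.sub (hs2 t h0 h1).hasSum).sub (hs3 t).hasSum).add
      (hs4 t).hasSum).tsum_eq
    rw [e3, e4] at this
    have e5 : ∀ m, e m * t ^ m = ‖c m‖ ^ 2 * t ^ m - ‖d m‖ ^ 2 * t ^ m
        - (if m = 0 then q * (5 / 9) else 0) * t ^ m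
        + (if m = 1 then q * (8 / 9) else 0) * t ^ m := by
      intro m
      simp only [he]
      ring
    simp only [e5]
    rw [this]
    ring
  have hpos : ∀ t : ℝ, 0 ≤ t → t < 1 → 0 ≤ ∑' m, e m * t ^ m := by
    intro t h0 h1
    rw [hval t h0 h1]
    have := lemW ho hu hv hvu hb h0 h1
    linarith
  have h2 := avg_series2 habs hpos h0 h1
  have hd1 : Summable fun m : ℕ => ‖c m‖ ^ 2 / (m + 1) ^ 2 * t ^ m := by
    apply Summable.of_nonneg_of_le (fun m => by positivity) (fun m => ?_) (hs1 t h0 h1)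
    apply mul_le_mul_of_nonneg_right _ (by positivity)
    apply div_le_self (by positivity)
    nlinarith [(Nat.cast_nonneg m : (0:ℝ) ≤ m)]
  have hd2 : Summable fun m : ℕ => ‖d m‖ ^ 2 / (m + 1) ^ 2 * t ^ m := by
    apply Summable.of_nonneg_of_le (fun m => by positivity) (fun m => ?_) (hs2 t h0 h1)
    apply mul_le_mul_of_nonneg_right _ (by positivity)
    apply div_le_self (by positivity)
    nlinarith [(Nat.cast_nonneg m : (0:ℝ) ≤ m)]
  have e3 : HasSum (fun m : ℕ => (if m = 0 then q * (5 / 9) else 0) / (m + 1) ^ 2 * t ^ m)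
      (q * (5 / 9)) := by
    convert hasSum_single (f := fun m : ℕ => (if m = 0 then q * (5 / 9) else 0) / ((m:ℝ) + 1) ^ 2 * t ^ m) 0 ?_ using 1
    · simp
    · intro n hn; simp [hn]
  have e4 : HasSum (fun m : ℕ => (if m = 1 then q * (8 / 9) else 0) / (m + 1) ^ 2 * t ^ m)
      (q * (2 / 9) * t) := by
    convert hasSum_single (f := fun m : ℕ => (if m = 1 then q * (8 / 9) else 0) / ((m:ℝ) + 1) ^ 2 * t ^ m) 1 ?_ using 1
    · simp only [if_true, pow_one, Nat.cast_one]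
      ring
    · intro n hn; simp [hn]
  have h3 := (((hd1.hasSum.sub hd2.hasSum).sub e3).add e4).tsum_eq
  have e5 : ∀ m : ℕ, e m / (m + 1) ^ 2 * t ^ m = ‖c m‖ ^ 2 / (m + 1) ^ 2 * t ^ m
      - ‖d m‖ ^ 2 / (m + 1) ^ 2 * t ^ m
      - (if m = 0 then q * (5 / 9) else 0) / (m + 1) ^ 2 * t ^ m
      + (if m = 1 then q * (8 / 9) else 0) / (m + 1) ^ 2 * t ^ m := by
    intro m
    simp only [he]
    ring
  simp only [e5] at h2
  rw [h3] at h2
  linarith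

end Pool.Agent.H422Bohr
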