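import Mathlib
import Pool.Agent.H422Bohr.Ell

set_option autoImplicit false

open Complex Metric Filter Topology MeasureTheory
open scoped ComplexConjugate
open Pool.Agent.Helper205.Bohr
open Pool.Agent.Helper156.Ess (mT)

namespace Pool.Agent.H422Bohr

/-- L2 inequality: the mean of the square of a product with a function bounded by one. -/
lemma l2_le {ω u v : ℂ → ℂ} {c d : ℕ → ℂ} (hu : PS u c) (hv : PS v d)
    (hvu : ∀ z : ℂ, ‖z‖ < 1 → v z = ω z * u z)
    (hb : ∀ z : ℂ, ‖z‖ < 1 → ‖ω z‖ ≤ 1) {t : ℝ} (h0 : 0 ≤ t) (h1 : t < 1) :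
    ∑' m, ‖d m‖ ^ 2 * t ^ m ≤ ∑' m, ‖c m‖ ^ 2 * t ^ m := by
  set R := Real.sqrt t with hR
  have hR0 : 0 ≤ R := Real.sqrt_nonneg t
  have hR1 : R < 1 := by
    rw [hR, Real.sqrt_lt' one_pos]
    simpa using h1
  have hR2 : R ^ 2 = t := Real.sq_sqrt h0
  have hcu := cont_circle hu.differentiableOn hR0 hR1
  have hcv := cont_circle hv.differentiableOn hR0 hR1
  have hint : ∫ θ : ℝ, ‖v (circleMap 0 R θ)‖ ^ 2 ∂mT ≤
      ∫ θ : ℝ, ‖u (circleMap 0 R θ)‖ ^ 2 ∂mT := by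
    apply integral_mono
    · exact integrable_mT (hcv.norm.pow 2)
    · exact integrable_mT (hcu.norm.pow 2)
    · intro θ
      have hz : ‖circleMap 0 R θ‖ < 1 := by rw [cm_norm hR0]; exact hR1
      simp only
      rw [hvu _ hz, norm_mul, mul_pow]
      have h2 := hb _ hz
      have h3 : ‖ω (circleMap 0 R θ)‖ ^ 2 ≤ 1 := by
        have := norm_nonneg (ω (circleMap 0 R θ))
        nlinarith
      exact mul_le_of_le_one_left (by positivity) h3
  rwa [mean_sq hv hR0 hR1, mean_sq hu hR0 hR1, hR2] at hint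

/-- two coefficient contraction -/
lemma contr {ω : ℂ → ℂ} {o : ℕ → ℂ} (ho : PS ω o)
    (hb : ∀ z : ℂ, ‖z‖ < 1 → ‖ω z‖ ≤ 1) (m : ℕ) (hm : 1 ≤ m) (x y : ℂ) :
    ‖o 0 * x‖ ^ 2 + ‖o m * x + o 0 * y‖ ^ 2 ≤ ‖x‖ ^ 2 + ‖y‖ ^ 2 := by
  set c : ℕ → ℂ := fun n => if n = 0 then x else if n = m then y else 0 with hc
  have hu : PS (fun z => x + y * z ^ m) c := by
    intro z hz
    have h1 : ∀ n ∉ ({0, m} : Finset ℕ), c n * z ^ n = 0 := by
      intro n hn
      simp only [Finset.mem_insert, Finset.mem_singleton, not_or] at hn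
      simp [hc, hn.1, hn.2]
    have h2 : HasSum (fun n => c n * z ^ n) (∑ n ∈ ({0, m} : Finset ℕ), c n * z ^ n) :=
      hasSum_sum_of_ne_finset_zero h1
    rw [Finset.sum_pair (by omega)] at h2
    have hm0 : m ≠ 0 := by omega
    simpa [hc, hm0] using h2
  have hv := ho.mul hu
  have key : ∀ t : ℝ, 0 ≤ t → t < 1 →
      ‖o 0 * x‖ ^ 2 * t ^ m + ‖o m * x + o 0 * y‖ ^ 2 * t ^ m ≤ ‖x‖ ^ 2 + ‖y‖ ^ 2 := by
    intro t h0 h1
    have h2 := l2_le hu hv (fun z _ => rfl) hb h0 h1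
    have hs := sq_summable hv h0 h1
    have h3 : ∑ n ∈ ({0, m} : Finset ℕ), ‖cprod o c n‖ ^ 2 * t ^ n ≤
        ∑' n, ‖cprod o c n‖ ^ 2 * t ^ n := hs.sum_le_tsum _ (fun n _ => by positivity)
    rw [Finset.sum_pair (by omega)] at h3
    have e0 : cprod o c 0 = o 0 * x := by
      simp [cprod, hc]
    have hm0 : m ≠ 0 := by omega
    have em : cprod o c m = o m * x + o 0 * y := by
      unfold cprod
      rw [← Finset.sum_subset (s₁ := {(m, 0), (0, m)})
        (s₂ := Finset.HasAntidiagonal.antidiagonal m)]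
      · rw [Finset.sum_pair]
        · simp [hc, hm0]
        · simp [hm0]
      · intro p hp
        simp only [Finset.mem_insert, Finset.mem_singleton] at hp
        rcases hp with rfl | rfl <;> simp
      · rintro ⟨i, j⟩ hp hq
        rw [Finset.HasAntidiagonal.mem_antidiagonal] at hp
        simp only at hp
        simp only [Finset.mem_insert, Finset.mem_singleton, Prod.mk.injEq, not_or, not_and] at hq
        have hj0 : j ≠ 0 := by
          intro h; exact hq.1 (by omega) h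
        have hjm : j ≠ m := by
          intro h; exact hq.2 (by omega) h
        simp [hc, hj0, hjm]
    have hx : ∑' n, ‖c n‖ ^ 2 * t ^ n = ‖x‖ ^ 2 + ‖y‖ ^ 2 * t ^ m := by
      rw [tsum_eq_sum (s := {0, m})]
      · rw [Finset.sum_pair (by omega)]
        simp [hc, hm0]
      · intro n hn
        simp only [Finset.mem_insert, Finset.mem_singleton, not_or] at hn
        simp [hc, hn.1, hn.2]
    rw [e0, em] at h3
    rw [hx] at h2
    have ht : t ^ m ≤ 1 := pow_le_one₀ h0 h1.le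
    have h5 : ‖o 0 * x‖ ^ 2 * t ^ m ≤ ‖o 0 * x‖ ^ 2 * t ^ 0 := by
      rw [pow_zero]
      exact mul_le_mul_of_nonneg_left ht (by positivity)
    have h6 : ‖y‖ ^ 2 * t ^ m ≤ ‖y‖ ^ 2 := mul_le_of_le_one_right (by positivity) ht
    linarith
  have hlim : Tendsto (fun t : ℝ => ‖o 0 * x‖ ^ 2 * t ^ m + ‖o m * x + o 0 * y‖ ^ 2 * t ^ m)
      (𝓝[<] 1) (𝓝 (‖o 0 * x‖ ^ 2 * 1 ^ m + ‖o m * x + o 0 * y‖ ^ 2 * 1 ^ m)) := by
    apply tendsto_nhdsWithin_of_tendsto_nhds
    apply Continuous.tendsto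
    fun_prop
  rw [one_pow, mul_one, mul_one] at hlim
  apply le_of_tendsto hlim
  filter_upwards [Ioo_mem_nhdsLT (show (0:ℝ) < 1 from one_pos)] with t ht
  exact key t ht.1.le ht.2

/-- the classical coefficient bound -/
lemma coef_bd {ω : ℂ → ℂ} {o : ℕ → ℂ} (ho : PS ω o)
    (hb : ∀ z : ℂ, ‖z‖ < 1 → ‖ω z‖ ≤ 1) (m : ℕ) (hm : 1 ≤ m) : ‖o m‖ ≤ 1 - ‖o 0‖ ^ 2 := by
  have hb0 : ‖o 0‖ ≤ 1 := by
    rw [← ps_zero ho]
    exact hb 0 (by simp)
  have hb1 := norm_nonneg (o 0)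
  rcases hb0.lt_or_eq with h | h
  · have hq : 0 < 1 - ‖o 0‖ ^ 2 := by nlinarith
    have h1 := contr ho hb m hm ((1 - ‖o 0‖ ^ 2 : ℝ) : ℂ) (conj (o 0) * o m)
    have e1 : o m * ((1 - ‖o 0‖ ^ 2 : ℝ) : ℂ) + o 0 * (conj (o 0) * o m) = o m := by
      rw [← mul_assoc, Complex.mul_conj, Complex.normSq_eq_norm_sq]
      push_cast
      ring
    rw [e1, norm_mul, norm_mul, Complex.norm_real, Real.norm_of_nonneg hq.le,
      RCLike.norm_conj] at h1
    have h2 : ‖o m‖ ^ 2 ≤ (1 - ‖o 0‖ ^ 2) ^ 2 := by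
      have h3 : (1 - ‖o 0‖ ^ 2) * ‖o m‖ ^ 2 ≤ (1 - ‖o 0‖ ^ 2) * (1 - ‖o 0‖ ^ 2) ^ 2 := by
        nlinarith
      exact le_of_mul_le_mul_left h3 hq
    exact (sq_le_sq₀ (norm_nonneg _) hq.le).1 h2
  · have h1 := contr ho hb m hm 1 0
    rw [mul_one, mul_one, mul_zero, add_zero, norm_one, norm_zero, h] at h1
    have h2 : ‖o m‖ ^ 2 ≤ 0 := by nlinarith
    have h3 : ‖o m‖ = 0 := by
      have := norm_nonneg (o m)
      nlinarith
    rw [h3, h]
    norm_num

/-- the second complex dilatation, with the removable singularities removed -/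
lemma exists_dil {H G : ℂ → ℂ} {k : ℝ} (hk : 0 < k) (hH : DifferentiableOn ℂ H (ball 0 1))
    (hG : DifferentiableOn ℂ G (ball 0 1)) (hle : ∀ z : ℂ, ‖z‖ < 1 → ‖G z‖ ≤ k * ‖H z‖) :
    ∃ ω : ℂ → ℂ, DifferentiableOn ℂ ω (ball 0 1) ∧ (∀ z : ℂ, ‖z‖ < 1 → ‖ω z‖ ≤ 1) ∧
      ∀ z : ℂ, ‖z‖ < 1 → G z = k * (ω z * H z) := by
  by_cases hz : Set.EqOn H 0 (ball 0 1)
  · refine ⟨fun _ => 0, differentiableOn_const _, fun z _ => by simp, fun z h => ?_⟩
    have h1 : H z = 0 := hz (by simpa using h)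
    have h2 := hle z h
    rw [h1, norm_zero, mul_zero] at h2
    rw [h1, mul_zero, mul_zero]
    exact norm_le_zero_iff.1 h2
  have hHa : AnalyticOnNhd ℂ H (ball 0 1) := hH.analyticOnNhd isOpen_ball
  have hev : ∀ z : ℂ, ‖z‖ < 1 → ∀ᶠ w in 𝓝[≠] z, H w ≠ 0 := by
    intro z hz1
    by_contra hcon
    rw [Filter.not_eventually] at hcon
    simp only [not_not] at hcon
    exact hz (hHa.eqOn_zero_of_preconnected_of_frequently_eq_zero
      (convex_ball (0 : ℂ) 1).isPreconnected (by simpa using hz1) hcon)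
  set q : ℂ → ℂ := fun z => G z / (k * H z) with hq
  have hkc : (k : ℂ) ≠ 0 := by exact_mod_cast hk.ne'
  have hqb : ∀ z : ℂ, ‖z‖ < 1 → ‖q z‖ ≤ 1 := by
    intro z hz1
    rw [hq]
    simp only
    rw [norm_div, norm_mul, Complex.norm_real, Real.norm_of_nonneg hk.le]
    exact div_le_one_of_le₀ (hle z hz1) (by positivity)
  have hqd : ∀ z : ℂ, ‖z‖ < 1 → H z ≠ 0 → DifferentiableAt ℂ q z := by
    intro z hz1 hne
    have hm : ball (0:ℂ) 1 ∈ 𝓝 z := isOpen_ball.mem_nhds (by simpa using hz1)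
    exact ((hG.differentiableAt hm)).div ((hH.differentiableAt hm).const_mul _)
      (mul_ne_zero hkc hne)
  set ω : ℂ → ℂ := fun z => limUnder (𝓝[≠] z) q with hω
  have hωq : ∀ z : ℂ, ‖z‖ < 1 → H z ≠ 0 → ω z = q z := by
    intro z hz1 hne
    exact ((hqd z hz1 hne).continuousAt.tendsto.mono_left nhdsWithin_le_nhds).limUnder_eq
  have hωd : ∀ z : ℂ, ‖z‖ < 1 → DifferentiableAt ℂ ω z := by
    intro z hz1
    have h1 := hev z hz1
    rw [eventually_nhdsWithin_iff] at h1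
    obtain ⟨ε, hε, hε2⟩ := Metric.eventually_nhds_iff_ball.1
      (h1.and (isOpen_ball.mem_nhds (show z ∈ ball (0:ℂ) 1 by simpa using hz1)))
    have hs : ball z ε ∈ 𝓝 z := ball_mem_nhds z hε
    have hd : DifferentiableOn ℂ q (ball z ε \ {z}) := by
      intro w hw
      have h2 := hε2 w hw.1
      exact (hqd w (by simpa using h2.2) (h2.1 hw.2)).differentiableWithinAt
    have hbd : BddAbove (norm ∘ q '' (ball z ε \ {z})) := by
      refine ⟨1, ?_⟩
      rintro _ ⟨w, hw, rfl⟩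
      exact hqb w (by simpa using (hε2 w hw.1).2)
    have h3 := Complex.differentiableOn_update_limUnder_of_bddAbove hs hd hbd
    have h4 : DifferentiableAt ℂ (Function.update q z (limUnder (𝓝[≠] z) q)) z :=
      h3.differentiableAt hs
    apply h4.congr_of_eventuallyEq
    filter_upwards [hs] with w hw
    by_cases hwz : w = z
    · rw [hwz, Function.update_self]
    · rw [Function.update_of_ne hwz]
      have h2 := hε2 w hw
      exact hωq w (by simpa using h2.2) (h2.1 hwz)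
  have hωb : ∀ z : ℂ, ‖z‖ < 1 → ‖ω z‖ ≤ 1 := by
    intro z hz1
    have h1 : Tendsto (fun w => ‖ω w‖) (𝓝[≠] z) (𝓝 ‖ω z‖) :=
      ((hωd z hz1).continuousAt.tendsto.mono_left nhdsWithin_le_nhds).norm
    apply le_of_tendsto h1
    have h2 : ∀ᶠ w in 𝓝[≠] z, w ∈ ball (0:ℂ) 1 :=
      nhdsWithin_le_nhds (isOpen_ball.mem_nhds (by simpa using hz1))
    filter_upwards [hev z hz1, h2] with w hw hw2
    have hw3 : ‖w‖ < 1 := by simpa using hw2
    rw [hωq w hw3 hw]
    exact hqb w hw3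
  refine ⟨ω, fun z hz1 => (hωd z (by simpa using hz1)).differentiableWithinAt, hωb, ?_⟩
  intro z hz1
  by_cases hne : H z = 0
  · have h2 := hle z hz1
    rw [hne, norm_zero, mul_zero] at h2
    rw [hne, mul_zero, mul_zero]
    exact norm_le_zero_iff.1 h2
  · rw [hωq z hz1 hne, hq]
    simp only
    field_simp

/-- a bounded function vanishing at the origin is `z φ` with `|φ| ≤ 1` -/
lemma exists_phi' {h : ℂ → ℂ} {a : ℕ → ℂ} (hh : PS h a) (ha0 : a 0 = 0)
    (hb : ∀ z : ℂ, ‖z‖ < 1 → ‖h z‖ ≤ 1) :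
    ∃ φ : ℂ → ℂ, PS φ (fun n => a (n + 1)) ∧ ∀ z : ℂ, ‖z‖ < 1 → ‖φ z‖ ≤ 1 := by
  have h00 : h 0 = 0 := by rw [ps_zero hh, ha0]
  set φ : ℂ → ℂ := dslope h 0 with hφ
  have hd : DifferentiableOn ℂ φ (ball 0 1) :=
    (Complex.differentiableOn_dslope (ball_mem_nhds (0:ℂ) one_pos)).2 hh.differentiableOn
  have hmul : ∀ z : ℂ, h z = z * φ z := by
    intro z
    have := sub_smul_dslope h 0 z
    rw [h00, sub_zero, sub_zero, smul_eq_mul] at this
    exact this.symm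
  have hps := ps_coeff hd
  have h1 := (hps.zmul).congr (G := h) (fun z _ => (hmul z).symm)
  have h2 := h1.unique hh
  refine ⟨φ, ?_, ?_⟩
  · have e : (fun n => a (n + 1)) = coeff φ := by
      funext n
      rw [← h2]
      rfl
    rw [e]
    exact hps
  · have hm : Set.MapsTo h (ball 0 1) (closedBall 0 1) := by
      intro z hz
      rw [mem_closedBall_zero_iff]
      exact hb z (by simpa using hz)
    have h3 : ∀ z : ℂ, ‖z‖ < 1 → z ≠ 0 → ‖φ z‖ ≤ 1 := by
      intro z hz hz0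
      have h4 := Complex.norm_le_norm_of_mapsTo_ball hh.differentiableOn hm h00 hz
      rw [hmul z, norm_mul] at h4
      have h5 : 0 < ‖z‖ := norm_pos_iff.2 hz0
      by_contra hcon
      push Not at hcon
      nlinarith
    intro z hz
    by_cases hz0 : z = 0
    · subst hz0
      have hc : ContinuousAt φ 0 :=
        (hd.differentiableAt (ball_mem_nhds (0:ℂ) one_pos)).continuousAt
      have h1 : Tendsto (fun w => ‖φ w‖) (𝓝[≠] 0) (𝓝 ‖φ 0‖) :=
        (hc.tendsto.mono_left nhdsWithin_le_nhds).norm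
      apply le_of_tendsto h1
      have h2 : ∀ᶠ w in 𝓝[≠] (0:ℂ), w ∈ ball (0:ℂ) 1 :=
        nhdsWithin_le_nhds (ball_mem_nhds (0:ℂ) one_pos)
      filter_upwards [h2, self_mem_nhdsWithin] with w hw hw2
      exact h3 w (by simpa using hw) hw2
    · exact h3 z hz hz0

end Pool.Agent.H422Bohr
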