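import Mathlib

set_option autoImplicit false

open Finset (range)

namespace Pool.Agent.H422Bohr

/-- upper bound for `∑_{m ≥ 1} r^m/(m+1)` -/
noncomputable def LL (r : ℝ) : ℝ :=
  r / 2 + r ^ 2 / 3 + r ^ 3 / 4 + r ^ 4 / 5 + r ^ 5 / 6 + r ^ 6 / (7 * (1 - r))

lemma sum_le_LL {r : ℝ} (h0 : 0 ≤ r) (h1 : r < 1) (N : ℕ) :
    ∑ m ∈ range N, r ^ (m + 1) / ((m : ℝ) + 2) ≤ LL r := by
  have hr : 0 < 1 - r := by linarith
  have key : ∀ n : ℕ, ∑ m ∈ range (n + 5), r ^ (m + 1) / ((m : ℝ) + 2) ≤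
      r / 2 + r ^ 2 / 3 + r ^ 3 / 4 + r ^ 4 / 5 + r ^ 5 / 6
        + (r ^ 6 - r ^ (n + 6)) / (7 * (1 - r)) := by
    intro n
    induction n with
    | zero =>
      simp only [zero_add, Finset.sum_range_succ, Finset.sum_range_zero, sub_self, zero_div,
        add_zero]
      norm_num
    | succ n ih =>
      rw [show n + 1 + 5 = (n + 5) + 1 by ring, Finset.sum_range_succ]
      have h2 : r ^ (n + 5 + 1) / (((n + 5 : ℕ) : ℝ) + 2) ≤ r ^ (n + 6) / 7 := by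
        rw [show n + 5 + 1 = n + 6 by ring]
        apply div_le_div_of_nonneg_left (by positivity) (by norm_num)
        push_cast
        linarith [(Nat.cast_nonneg n : (0:ℝ) ≤ n)]
      have h3 : (r ^ 6 - r ^ (n + 6)) / (7 * (1 - r)) + r ^ (n + 6) / 7 =
          (r ^ 6 - r ^ (n + 1 + 6)) / (7 * (1 - r)) := by
        field_simp
        ring
      linarith
  have h4 : ∑ m ∈ range N, r ^ (m + 1) / ((m : ℝ) + 2) ≤
      ∑ m ∈ range (N + 5), r ^ (m + 1) / ((m : ℝ) + 2) := by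
    apply Finset.sum_le_sum_of_subset_of_nonneg
    · intro x hx
      rw [Finset.mem_range] at hx ⊢
      omega
    · intro i _ _
      positivity
  have h5 := key N
  have h6 : (r ^ 6 - r ^ (N + 6)) / (7 * (1 - r)) ≤ r ^ 6 / (7 * (1 - r)) := by
    apply div_le_div_of_nonneg_right _ (by positivity)
    have : 0 ≤ r ^ (N + 6) := by positivity
    linarith
  unfold LL
  linarith

lemma LL_mono {r s : ℝ} (h0 : 0 ≤ r) (h : r ≤ s) (h1 : s < 1) : LL r ≤ LL s := by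
  unfold LL
  have hs : 0 ≤ s := h0.trans h
  have e2 : r ^ 2 ≤ s ^ 2 := pow_le_pow_left₀ h0 h 2
  have e3 : r ^ 3 ≤ s ^ 3 := pow_le_pow_left₀ h0 h 3
  have e4 : r ^ 4 ≤ s ^ 4 := pow_le_pow_left₀ h0 h 4
  have e5 : r ^ 5 ≤ s ^ 5 := pow_le_pow_left₀ h0 h 5
  have e6 : r ^ 6 / (7 * (1 - r)) ≤ s ^ 6 / (7 * (1 - s)) := by
    apply div_le_div₀ (by positivity) (pow_le_pow_left₀ h0 h 6) (by linarith)
    linarith
  linarith

/-- one piece of the one variable inequality -/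
lemma piece {r1 r2 Y c r y a b : ℝ} (hr1 : r1 ≤ r) (hr2 : r ≤ r2) (hp0 : 0 < r1) (hp2 : r2 < 1)
    (hy : r ^ 2 + 2 * y ^ 2 = 1) (hy0 : 1 / 2 ≤ y) (hY : 0 < Y) (n1 : 1 - r1 ^ 2 ≤ 2 * Y ^ 2)
    (n2 : r1 ^ 2 + 2 * (c - 7745 / 10000 * r1) ^ 2 ≤ 1)
    (n3 : r2 ^ 2 + 2 * (c - 7745 / 10000 * r2) ^ 2 ≤ 1)
    (n4 : 1 < c) (n5 : 1 / 2 ≤ LL r2)
    (n6 : (4 * Y - 2) * r2 * (2 * LL r2 - 1) ^ 2 * Y ≤ 4 * (c - 1) ^ 2)
    (ha : 7745 / 10000 ≤ a) (ha1 : a ≤ 1) (hb0 : 0 ≤ b) (hb1 : b ≤ 1) :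
    (4 * y - 2) * (a * r) * (b + (1 - b ^ 2) * LL r - 1) * (1 - a * r)
      ≤ 2 * ((1 - a * r) - y) ^ 2 := by
  have hr0 : 0 < r := hp0.trans_le hr1
  have hr20 : 0 < r2 := hr0.trans_le hr2
  have hyY : y ≤ Y := by
    have h1 : y ^ 2 ≤ Y ^ 2 := by nlinarith
    exact (sq_le_sq₀ (by linarith) hY.le).1 h1
  have hc : c ≤ y + 7745 / 10000 * r := by
    by_contra hcon
    push Not at hcon
    have h1 : y ^ 2 < (c - 7745 / 10000 * r) ^ 2 := by
      apply pow_lt_pow_left₀ (by linarith) (by linarith) two_ne_zero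
    have h2 : r ^ 2 + 2 * (c - 7745 / 10000 * r) ^ 2 ≤ 1 := by
      -- convex quadratic
      have h3 : 0 ≤ (r - r1) * (r2 - r) := mul_nonneg (by linarith) (by linarith)
      rcases (hr1.trans hr2).eq_or_lt with h | h
      · have : r = r1 := le_antisymm (by linarith) hr1
        rw [this]; exact n2
      · have h4 := mul_le_mul_of_nonneg_left n2 (by linarith : 0 ≤ r2 - r)
        have h5 := mul_le_mul_of_nonneg_left n3 (by linarith : 0 ≤ r - r1)
        have h6 : (r2 - r1) * (r ^ 2 + 2 * (c - 7745 / 10000 * r) ^ 2) ≤ (r2 - r1) * 1 := by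
          have h7 : 0 ≤ (r2 - r1) * ((r - r1) * (r2 - r)) := mul_nonneg (by linarith) h3
          nlinarith
        exact le_of_mul_le_mul_left h6 (by linarith)
    nlinarith
  have hL : LL r ≤ LL r2 := LL_mono hr0.le hr2 hp2
  set p := 2 * LL r2 - 1 with hp
  have hp0' : 0 ≤ p := by linarith
  have hb2 : 0 ≤ 1 - b ^ 2 := by nlinarith
  have hX : b + (1 - b ^ 2) * LL r - 1 ≤ p ^ 2 / 2 := by
    have h1 : (1 - b ^ 2) * LL r ≤ (1 - b ^ 2) * LL r2 := mul_le_mul_of_nonneg_left hL hb2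
    have h2 : LL r2 = (p + 1) / 2 := by rw [hp]; ring
    rw [h2] at h1
    nlinarith [sq_nonneg (p - (1 - b)), mul_nonneg hp0' (sq_nonneg (1 - b))]
  have har : 7745 / 10000 * r ≤ a * r := mul_le_mul_of_nonneg_right ha hr0.le
  have har1 : a * r ≤ r2 := by nlinarith
  have har2 : a * r < 1 := by linarith
  have har0 : 0 < a * r := by positivity
  have hd : c - 1 ≤ y - (1 - a * r) := by linarith
  have hY2 : 1 - a * r ≤ Y := by linarith
  have h4y : 0 ≤ 4 * y - 2 := by linarith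
  have step1 : (4 * y - 2) * (a * r) * (b + (1 - b ^ 2) * LL r - 1) * (1 - a * r) ≤
      (4 * y - 2) * (a * r) * (p ^ 2 / 2) * (1 - a * r) := by
    apply mul_le_mul_of_nonneg_right _ (by linarith)
    exact mul_le_mul_of_nonneg_left hX (by positivity)
  have step2 : (4 * y - 2) * (a * r) * (p ^ 2 / 2) * (1 - a * r) ≤
      (4 * Y - 2) * r2 * (p ^ 2 / 2) * Y := by
    have e1 : (4 * y - 2) * (a * r) ≤ (4 * Y - 2) * r2 :=
      mul_le_mul (by linarith) har1 har0.le (by linarith)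
    have e2 : (4 * y - 2) * (a * r) * (p ^ 2 / 2) ≤ (4 * Y - 2) * r2 * (p ^ 2 / 2) :=
      mul_le_mul_of_nonneg_right e1 (by positivity)
    have e3 : 0 ≤ (4 * Y - 2) * r2 * (p ^ 2 / 2) := by
      apply mul_nonneg (mul_nonneg (by linarith) hr20.le) (by positivity)
    exact mul_le_mul e2 hY2 (by linarith) e3
  have step3 : (c - 1) ^ 2 ≤ (y - (1 - a * r)) ^ 2 :=
    pow_le_pow_left₀ (by linarith) hd 2
  nlinarith

lemma one_var {r y a b : ℝ} (hr0 : 0 < r) (hy : r ^ 2 + 2 * y ^ 2 = 1) (hy0 : 1 / 2 ≤ y)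
    (ha : 7745 / 10000 ≤ a) (ha1 : a ≤ 1) (hb0 : 0 ≤ b) (hb1 : b ≤ 1) :
    (4 * y - 2) * (a * r) * (b + (1 - b ^ 2) * LL r - 1) * (1 - a * r)
      ≤ 2 * ((1 - a * r) - y) ^ 2 := by
  have hr : r ≤ 7072 / 10000 := by nlinarith
  by_cases h1 : r ≤ 58 / 100
  · have hL : LL r ≤ 1 / 2 := by
      have := LL_mono hr0.le h1 (by norm_num)
      have h2 : LL (58 / 100) ≤ 1 / 2 := by unfold LL; norm_num
      linarith
    have hX : b + (1 - b ^ 2) * LL r - 1 ≤ 0 := by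
      have h2 : (1 - b ^ 2) * LL r ≤ (1 - b ^ 2) * (1 / 2) :=
        mul_le_mul_of_nonneg_left hL (by nlinarith)
      nlinarith [sq_nonneg (1 - b)]
    have h3 : 0 ≤ (4 * y - 2) * (a * r) := mul_nonneg (by linarith) (by positivity)
    have h4 : (4 * y - 2) * (a * r) * (b + (1 - b ^ 2) * LL r - 1) ≤ 0 :=
      mul_nonpos_of_nonneg_of_nonpos h3 hX
    have h5 : 0 ≤ 1 - a * r := by nlinarith
    have h6 := mul_nonpos_of_nonpos_of_nonneg h4 h5
    have h7 := sq_nonneg ((1 - a * r) - y)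
    linarith
  push Not at h1
  by_cases h2 : r ≤ 60 / 100
  · exact piece (r1 := 58 / 100) (r2 := 60 / 100) (Y := 57603 / 100000) (c := 102523 / 100000)
      h1.le h2 (by norm_num) (by norm_num) hy hy0 (by norm_num) (by norm_num) (by norm_num)
      (by norm_num) (by norm_num) (by unfold LL; norm_num) (by unfold LL; norm_num) ha ha1 hb0 hb1
  push Not at h2
  by_cases h3 : r ≤ 62 / 100
  · exact piece (r1 := 60 / 100) (r2 := 62 / 100) (Y := 56569 / 100000) (c := 51519 / 50000)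
      h2.le h3 (by norm_num) (by norm_num) hy hy0 (by norm_num) (by norm_num) (by norm_num)
      (by norm_num) (by norm_num) (by unfold LL; norm_num) (by unfold LL; norm_num) ha ha1 hb0 hb1
  push Not at h3
  by_cases h4 : r ≤ 64 / 100
  · exact piece (r1 := 62 / 100) (r2 := 64 / 100) (Y := 1387 / 2500) (c := 51749 / 50000)
      h3.le h4 (by norm_num) (by norm_num) hy hy0 (by norm_num) (by norm_num) (by norm_num)
      (by norm_num) (by norm_num) (by unfold LL; norm_num) (by unfold LL; norm_num) ha ha1 hb0 hb1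
  push Not at h4
  by_cases h5 : r ≤ 655 / 1000
  · exact piece (r1 := 64 / 100) (r2 := 655 / 1000) (Y := 54333 / 100000) (c := 1039 / 1000)
      h4.le h5 (by norm_num) (by norm_num) hy hy0 (by norm_num) (by norm_num) (by norm_num)
      (by norm_num) (by norm_num) (by unfold LL; norm_num) (by unfold LL; norm_num) ha ha1 hb0 hb1
  push Not at h5
  by_cases h6 : r ≤ 67 / 100
  · exact piece (r1 := 655 / 1000) (r2 := 67 / 100) (Y := 6679 / 12500) (c := 651 / 625)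
      h5.le h6 (by norm_num) (by norm_num) hy hy0 (by norm_num) (by norm_num) (by norm_num)
      (by norm_num) (by norm_num) (by unfold LL; norm_num) (by unfold LL; norm_num) ha ha1 hb0 hb1
  push Not at h6
  by_cases h7 : r ≤ 685 / 1000
  · exact piece (r1 := 67 / 100) (r2 := 685 / 1000) (Y := 52493 / 100000) (c := 3262 / 3125)
      h6.le h7 (by norm_num) (by norm_num) hy hy0 (by norm_num) (by norm_num) (by norm_num)
      (by norm_num) (by norm_num) (by unfold LL; norm_num) (by unfold LL; norm_num) ha ha1 hb0 hb1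
  push Not at h7
  by_cases h8 : r ≤ 70 / 100
  · exact piece (r1 := 685 / 1000) (r2 := 70 / 100) (Y := 12879 / 25000) (c := 104569 / 100000)
      h7.le h8 (by norm_num) (by norm_num) hy hy0 (by norm_num) (by norm_num) (by norm_num)
      (by norm_num) (by norm_num) (by unfold LL; norm_num) (by unfold LL; norm_num) ha ha1 hb0 hb1
  push Not at h8
  exact piece (r1 := 70 / 100) (r2 := 7072 / 10000) (Y := 25249 / 50000) (c := 13089 / 12500)
      h8.le hr (by norm_num) (by norm_num) hy hy0 (by norm_num) (by norm_num) (by norm_num)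
      (by norm_num) (by norm_num) (by unfold LL; norm_num) (by unfold LL; norm_num) ha ha1 hb0 hb1

/-- the extremal function of `a` -/
lemma fM {r y a : ℝ} (hy : r ^ 2 + 2 * y ^ 2 = 1) (h : 0 < 1 - a * r) :
    a * r + r ^ 2 * (1 - a ^ 2) / (1 - a * r) = 3 - 4 * y - 2 * ((1 - a * r) - y) ^ 2 / (1 - a * r) := by
  have h2 : r ^ 2 = 1 - 2 * y ^ 2 := by linarith
  have h3 : 1 - a * r ≠ 0 := h.ne'
  field_simp
  nlinarith

/-- termwise arithmetic-geometric mean inequality, summed -/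
lemma amgm {s : ℕ → ℝ} {ρ r τ S : ℝ} (hρ : 0 < ρ) (hr : 0 ≤ r) (hrρ : r ^ 2 < ρ) (hτ : 0 < τ)
    (N : ℕ) (hS : ∑ m ∈ range N, s (m + 1) ^ 2 * ρ ^ (m + 1) ≤ S) :
    ∑ m ∈ range N, s (m + 1) * r ^ (m + 1) ≤ (τ * S + (r ^ 2 / (ρ - r ^ 2)) / τ) / 2 := by
  have h1 : ∀ m : ℕ, s (m + 1) * r ^ (m + 1) ≤
      (τ * (s (m + 1) ^ 2 * ρ ^ (m + 1)) + (r ^ 2 / ρ) ^ (m + 1) / τ) / 2 := by
    intro m
    have hp : 0 < ρ ^ (m + 1) := by positivity
    have e1 : (r ^ 2 / ρ) ^ (m + 1) = (r ^ (m + 1)) ^ 2 / ρ ^ (m + 1) := by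
      rw [div_pow, ← pow_mul, ← pow_mul, mul_comm 2]
    rw [e1]
    set P := ρ ^ (m + 1)
    set x := r ^ (m + 1)
    set v := s (m + 1)
    have h2 : 0 ≤ (τ * v * P - x) ^ 2 / (τ * P) := by positivity
    have h3 : (τ * v * P - x) ^ 2 / (τ * P) = τ * (v ^ 2 * P) + x ^ 2 / P / τ - 2 * (v * x) := by
      field_simp
      ring
    rw [h3] at h2
    linarith
  have hq0 : 0 ≤ r ^ 2 / ρ := by positivity
  have hq1 : r ^ 2 / ρ < 1 := (div_lt_one hρ).2 hrρ
  have h4 : ∑ m ∈ range N, (r ^ 2 / ρ) ^ (m + 1) ≤ r ^ 2 / (ρ - r ^ 2) := by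
    have h5 : ∑ m ∈ range N, (r ^ 2 / ρ) ^ m ≤ (1 - r ^ 2 / ρ)⁻¹ := by
      rw [← tsum_geometric_of_lt_one hq0 hq1]
      exact (summable_geometric_of_lt_one hq0 hq1).sum_le_tsum _ (fun n _ => by positivity)
    have h6 : ∑ m ∈ range N, (r ^ 2 / ρ) ^ (m + 1) = (r ^ 2 / ρ) * ∑ m ∈ range N, (r ^ 2 / ρ) ^ m := by
      rw [Finset.mul_sum]
      apply Finset.sum_congr rfl
      intro m _
      rw [pow_succ]; ring
    have h7 : r ^ 2 / (ρ - r ^ 2) = (r ^ 2 / ρ) * (1 - r ^ 2 / ρ)⁻¹ := by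
      have : ρ - r ^ 2 ≠ 0 := by
        have : 0 < ρ - r ^ 2 := by linarith
        exact this.ne'
      have h8 : 1 - r ^ 2 / ρ ≠ 0 := by
        have : 0 < 1 - r ^ 2 / ρ := by linarith
        exact this.ne'
      have h9 : 1 - r ^ 2 / ρ = (ρ - r ^ 2) / ρ := by field_simp
      rw [h9, inv_div]
      field_simp
    rw [h6, h7]
    exact mul_le_mul_of_nonneg_left h5 hq0
  calc ∑ m ∈ range N, s (m + 1) * r ^ (m + 1)
      ≤ ∑ m ∈ range N, (τ * (s (m + 1) ^ 2 * ρ ^ (m + 1)) + (r ^ 2 / ρ) ^ (m + 1) / τ) / 2 :=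
        Finset.sum_le_sum fun m _ => h1 m
    _ = (τ * ∑ m ∈ range N, s (m + 1) ^ 2 * ρ ^ (m + 1)
          + (∑ m ∈ range N, (r ^ 2 / ρ) ^ (m + 1)) / τ) / 2 := by
        rw [← Finset.sum_div, Finset.sum_add_distrib, ← Finset.mul_sum, ← Finset.sum_div]
    _ ≤ (τ * S + (r ^ 2 / (ρ - r ^ 2)) / τ) / 2 := by
        have a1 := mul_le_mul_of_nonneg_left hS hτ.le
        have a2 := div_le_div_of_nonneg_right h4 hτ.le
        linarith

/-- the case `b ≤ r` -/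
lemma case_small {s : ℕ → ℝ} {r b : ℝ} (hr : 0 < r) (hr2 : 2 * r ^ 2 ≤ 1) (hb0 : 0 ≤ b)
    (hb : b ≤ r) (N : ℕ)
    (hS : ∑ m ∈ range N, s (m + 1) ^ 2 ≤ 1 - b ^ 2) :
    b + ∑ m ∈ range N, s (m + 1) * r ^ (m + 1) ≤ 2 * r := by
  have h1 : 0 < 1 - r ^ 2 := by nlinarith
  have hS' : ∑ m ∈ range N, s (m + 1) ^ 2 * (1:ℝ) ^ (m + 1) ≤ 1 - b ^ 2 := by
    simpa using hS
  have h2 := amgm (ρ := 1) (τ := r / (1 - r ^ 2)) one_pos hr.le (by linarith) (by positivity) N hS'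
  have h3 : (r / (1 - r ^ 2) * (1 - b ^ 2) + (r ^ 2 / (1 - r ^ 2)) / (r / (1 - r ^ 2))) / 2
      ≤ 2 * r - b := by
    have e1 : (r ^ 2 / (1 - r ^ 2)) / (r / (1 - r ^ 2)) = r := by
      field_simp
    rw [e1]
    have h4 : r / (1 - r ^ 2) * (1 - b ^ 2) ≤ 3 * r - 2 * b := by
      rw [div_mul_eq_mul_div, div_le_iff₀ h1]
      -- r(1-b²) ≤ (3r-2b)(1-r²)
      have h5 : (3 * r - 2 * b) * (1 - r ^ 2) - r * (1 - b ^ 2)
          = (r - b) * (2 * (1 - r ^ 2) - r * (r + b)) := by ring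
      have h6 : 0 ≤ (r - b) * (2 * (1 - r ^ 2) - r * (r + b)) := by
        apply mul_nonneg (by linarith)
        nlinarith
      linarith
    linarith
  linarith

end Pool.Agent.H422Bohr
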