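import Mathlib
import Pool.Agent.H422Bohr.Coef
import Pool.Agent.H422Bohr.Rl

set_option autoImplicit false

open Complex Metric Filter Topology
open scoped ComplexConjugate
open Pool.Agent.Helper205.Bohr
open Finset (range)

namespace Pool.Agent.H422Bohr

/-- the right side of Lemma C -/
noncomputable def CC (a t : ℝ) : ℝ := t * (1 - a ^ 2) ^ 2 / (1 - t * a ^ 2)

lemma CC_le {a t : ℝ} (ha0 : 0 ≤ a) (ha : a < 1) (h1 : t < 1) :
    CC a t ≤ 1 - a ^ 2 := by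
  unfold CC
  have h2 : 0 < 1 - a ^ 2 := by nlinarith
  have h3 : 0 < 1 - t * a ^ 2 := by nlinarith [sq_nonneg a]
  rw [div_le_iff₀ h3]
  nlinarith [mul_nonneg h2.le (by linarith : 0 ≤ 1 - t)]

/-- Lemma C for partial sums -/
lemma lemC_fin {φ : ℂ → ℂ} {c : ℕ → ℂ} (h : PS φ c) (hb : ∀ z : ℂ, ‖z‖ < 1 → ‖φ z‖ ≤ 1)
    (hc1 : ‖c 0‖ < 1) {t : ℝ} (h0 : 0 ≤ t) (h1 : t < 1) :
    ∑' m, ‖c (m + 1)‖ ^ 2 * t ^ (m + 1) ≤ CC ‖c 0‖ t := by
  have h2 := lemC h hb h0 h1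
  have h3 : 0 < 1 - t * ‖c 0‖ ^ 2 := by
    have := norm_nonneg (c 0)
    nlinarith [sq_nonneg ‖c 0‖]
  unfold CC
  rw [le_div_iff₀ h3]
  linarith

/-- passing to the limit `t → 1` in finite sums -/
lemma fin_lim {s : ℕ → ℝ} {S : ℝ} (N : ℕ)
    (h : ∀ t : ℝ, 0 ≤ t → t < 1 → ∑ m ∈ range N, s m * t ^ (m + 1) ≤ S) :
    ∑ m ∈ range N, s m ≤ S := by
  have hlim : Tendsto (fun t : ℝ => ∑ m ∈ range N, s m * t ^ (m + 1)) (𝓝[<] 1)
      (𝓝 (∑ m ∈ range N, s m * 1 ^ (m + 1))) := by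
    apply tendsto_nhdsWithin_of_tendsto_nhds
    apply Continuous.tendsto
    fun_prop
  simp only [one_pow, mul_one] at hlim
  apply le_of_tendsto hlim
  filter_upwards [Ioo_mem_nhdsLT (show (0:ℝ) < 1 from one_pos)] with t ht
  exact h t ht.1.le ht.2

lemma avg_summable' {F : ℂ → ℂ} {c : ℕ → ℂ} (hu : PS F c) {t : ℝ} (h0 : 0 ≤ t) (h1 : t < 1) :
    Summable fun m : ℕ => ‖c m‖ ^ 2 / (m + 1) ^ 2 * t ^ m := by
  apply Summable.of_nonneg_of_le (fun m => by positivity) (fun m => ?_) (sq_summable hu h0 h1)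
  apply mul_le_mul_of_nonneg_right _ (by positivity)
  apply div_le_self (by positivity)
  nlinarith [(Nat.cast_nonneg m : (0:ℝ) ≤ m)]

/-- the two weighted bounds for `G` -/
lemma G_bounds {h ω u v : ℂ → ℂ} {a o d : ℕ → ℂ} (hh : PS h a) (ha0 : a 0 = 0)
    (hb : ∀ z : ℂ, ‖z‖ < 1 → ‖h z‖ ≤ 1) (ha1 : ‖a 1‖ < 1)
    (ho : PS ω o) (hob : ∀ z : ℂ, ‖z‖ < 1 → ‖ω z‖ ≤ 1)
    (hu : PS u (fun n => ((n : ℂ) + 1) * a (n + 1)))
    (hv : PS v d) (hvu : ∀ z : ℂ, ‖z‖ < 1 → v z = ω z * u z) {t : ℝ} (h0 : 0 ≤ t) (h1 : t < 1)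
    (N : ℕ) :
    (∑ m ∈ range N, ‖a (m + 2)‖ ^ 2 * t ^ (m + 1) ≤ CC ‖a 1‖ t) ∧
    (∑ m ∈ range N, (‖d (m + 1)‖ / ((m : ℝ) + 2)) ^ 2 * t ^ (m + 1) ≤
      2 / 3 * (1 - ‖o 0‖ ^ 2) * ‖a 1‖ ^ 2 + CC ‖a 1‖ t) ∧
    (∑ m ∈ range N, (‖d (m + 1)‖ / ((m : ℝ) + 2)) ^ 2 * t ^ (m + 1) ≤
      1 - (‖o 0‖ * ‖a 1‖) ^ 2) ∧
    (∑ m ∈ range N, (‖d (m + 1) - a 1 * o (m + 1)‖ / ((m : ℝ) + 2)) ^ 2 * t ^ (m + 1) ≤
      CC ‖a 1‖ t) := by
  obtain ⟨φ, hφ, hφb⟩ := exists_phi' hh ha0 hb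
  have hC := lemC_fin hφ hφb (by simpa using ha1) h0 h1
  simp only [zero_add] at hC
  have hsφ := sq_summable hφ h0 h1
  have hsφ1 : Summable fun m => ‖a (m + 1 + 1)‖ ^ 2 * t ^ (m + 1) :=
    (summable_nat_add_iff (f := fun m => ‖a (m + 1)‖ ^ 2 * t ^ m) 1).2 hsφ
  have hnorm : ∀ m : ℕ, ‖((m : ℂ) + 1) * a (m + 1)‖ ^ 2 / ((m : ℝ) + 1) ^ 2 = ‖a (m + 1)‖ ^ 2 := by
    intro m
    have e : ‖(m : ℂ) + 1‖ = (m : ℝ) + 1 := by
      have : (m : ℂ) + 1 = (((m : ℝ) + 1 : ℝ) : ℂ) := by push_cast; ring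
      rw [this, Complex.norm_real, Real.norm_of_nonneg (by positivity)]
    rw [norm_mul, e, mul_pow]
    field_simp
  have hd0 : d 0 = o 0 * a 1 := by
    have e1 := ps_zero hv
    have e2 := hvu 0 (by simp)
    rw [e1, ps_zero ho, ps_zero hu] at e2
    simpa using e2
  have hb0 : ‖o 0‖ ≤ 1 := by
    rw [← ps_zero ho]
    exact hob 0 (by simp)
  have hq : 0 ≤ 1 - ‖o 0‖ ^ 2 := by nlinarith [norm_nonneg (o 0)]
  refine ⟨?_, ?_⟩
  · refine le_trans ?_ hC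
    exact hsφ1.sum_le_tsum _ (fun n _ => by positivity)
  -- weighted inequality
  have hW := lemWi ho hu hv hvu hob h0 h1
  have hsd := avg_summable' hv h0 h1
  rw [hsd.tsum_eq_zero_add] at hW
  simp only [hnorm] at hW
  rw [hsφ.tsum_eq_zero_add] at hW
  simp only [zero_add, Nat.cast_zero, one_pow, div_one, pow_zero, mul_one, hd0, norm_mul,
    one_mul] at hW
  have hsd1 : Summable fun m : ℕ => ‖d (m + 1)‖ ^ 2 / (((m + 1 : ℕ) : ℝ) + 1) ^ 2 * t ^ (m + 1) :=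
    (summable_nat_add_iff (f := fun m : ℕ => ‖d m‖ ^ 2 / ((m : ℝ) + 1) ^ 2 * t ^ m) 1).2 hsd
  have hfin : ∑ m ∈ range N, (‖d (m + 1)‖ / ((m : ℝ) + 2)) ^ 2 * t ^ (m + 1) ≤
      ∑' m : ℕ, ‖d (m + 1)‖ ^ 2 / (((m + 1 : ℕ) : ℝ) + 1) ^ 2 * t ^ (m + 1) := by
    have h2 := hsd1.sum_le_tsum (range N) (fun n _ => by positivity)
    refine le_trans (le_of_eq ?_) h2
    apply Finset.sum_congr rfl
    intro m _
    rw [div_pow]
    push_cast
    ring_nf
  have hA : 0 ≤ ‖a 1‖ ^ 2 := sq_nonneg _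
  have hqa : 0 ≤ (1 - ‖o 0‖ ^ 2) * ‖a 1‖ ^ 2 := mul_nonneg hq hA
  have h2 : ∑ m ∈ range N, (‖d (m + 1)‖ / ((m : ℝ) + 2)) ^ 2 * t ^ (m + 1) ≤
      2 / 3 * (1 - ‖o 0‖ ^ 2) * ‖a 1‖ ^ 2 + CC ‖a 1‖ t := by
    have h3 : (1 - ‖o 0‖ ^ 2) * ‖a 1‖ ^ 2 * (1 / 3) ≤
        (1 - ‖o 0‖ ^ 2) * ‖a 1‖ ^ 2 * (5 / 9 - 2 / 9 * t) :=
      mul_le_mul_of_nonneg_left (by linarith) hqa
    nlinarith
  refine ⟨h2, ?_, ?_⟩
  · have h3 := CC_le (norm_nonneg (a 1)) ha1 h1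
    nlinarith
  · -- the remainder after splitting off `a 1 * ω`
    have hcst : PS (fun _ => a 1) (fun n => if n = 0 then a 1 else 0) := ps_const (a 1)
    have hu' : PS (fun z => u z - a 1)
        (fun n => ((n : ℂ) + 1) * a (n + 1) - (if n = 0 then a 1 else 0)) := hu.sub hcst
    have hv' : PS (fun z => v z - a 1 * ω z) (fun n => d n - a 1 * o n) :=
      hv.sub (ho.const_mul (a 1))
    have hW' := lemWi ho hu' hv' (fun z hz => by
      rw [hvu z hz]; ring) hob h0 h1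
    have hsd' := avg_summable' hv' h0 h1
    have hsu' := avg_summable' hu' h0 h1
    rw [hsd'.tsum_eq_zero_add, hsu'.tsum_eq_zero_add] at hW'
    have e0 : ((0 : ℕ) : ℂ) + 1 = 1 := by simp
    simp only [if_true, e0, one_mul, zero_add, sub_self, norm_zero] at hW'
    have e1 : ∀ m : ℕ, ‖((((m + 1 : ℕ) : ℂ) + 1) * a (m + 1 + 1)
        - (if m + 1 = 0 then a 1 else 0))‖ ^ 2 / (((m + 1 : ℕ) : ℝ) + 1) ^ 2 * t ^ (m + 1)
        = ‖a (m + 1 + 1)‖ ^ 2 * t ^ (m + 1) := by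
      intro m
      rw [if_neg (Nat.succ_ne_zero m), sub_zero, hnorm (m + 1)]
    simp only [e1] at hW'
    have hsd1' : Summable fun m : ℕ => ‖d (m + 1) - a 1 * o (m + 1)‖ ^ 2
        / (((m + 1 : ℕ) : ℝ) + 1) ^ 2 * t ^ (m + 1) :=
      (summable_nat_add_iff (f := fun m : ℕ => ‖d m - a 1 * o m‖ ^ 2
        / ((m : ℝ) + 1) ^ 2 * t ^ m) 1).2 hsd'
    have hfin' : ∑ m ∈ range N, (‖d (m + 1) - a 1 * o (m + 1)‖ / ((m : ℝ) + 2)) ^ 2 * t ^ (m + 1) ≤
        ∑' m : ℕ, ‖d (m + 1) - a 1 * o (m + 1)‖ ^ 2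
          / (((m + 1 : ℕ) : ℝ) + 1) ^ 2 * t ^ (m + 1) := by
      have h2 := hsd1'.sum_le_tsum (range N) (fun n _ => by positivity)
      refine le_trans (le_of_eq ?_) h2
      apply Finset.sum_congr rfl
      intro m _
      rw [div_pow]
      push_cast
      ring_nf
    have h3 : (0:ℝ) ≤ ‖d 0 - a 1 * o 0‖ ^ 2 / (((0 : ℕ) : ℝ) + 1) ^ 2 * t ^ 0 := by positivity
    have h4 : ((0:ℝ) ^ 2 / (((0 : ℕ) : ℝ) + 1) ^ 2 * t ^ 0) = 0 := by simp
    have h5 : (1 - ‖o 0‖ ^ 2) * (0:ℝ) ^ 2 * (5 / 9 - 2 / 9 * t) = 0 := by ring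
    rw [h4, h5] at hW'
    linarith

/-- the main inequality, normalised -/
theorem main_norm {h ω u v : ℂ → ℂ} {a o d : ℕ → ℂ} (hh : PS h a) (ha0 : a 0 = 0)
    (hb : ∀ z : ℂ, ‖z‖ < 1 → ‖h z‖ ≤ 1) (ha1 : ‖a 1‖ < 1)
    (ho : PS ω o) (hob : ∀ z : ℂ, ‖z‖ < 1 → ‖ω z‖ ≤ 1)
    (hu : PS u (fun n => ((n : ℂ) + 1) * a (n + 1)))
    (hv : PS v d) (hvu : ∀ z : ℂ, ‖z‖ < 1 → v z = ω z * u z)
    {r y : ℝ} (hr : 0 < r) (hy : r ^ 2 + 2 * y ^ 2 = 1) (hy0 : 1 / 2 ≤ y) (hy1 : y ≤ 5 / 8)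
    (N : ℕ) :
    (3 - 4 * y) * (r * (‖a 1‖ + ∑ m ∈ range N, ‖a (m + 2)‖ * r ^ (m + 1)))
      + (4 * y - 2) * (r * (‖d 0‖ + ∑ m ∈ range N, ‖d (m + 1)‖ / ((m : ℝ) + 2) * r ^ (m + 1)))
      ≤ 3 - 4 * y := by
  have hb0 : ‖o 0‖ ≤ 1 := by
    rw [← ps_zero ho]
    exact hob 0 (by simp)
  have hd0 : ‖d 0‖ = ‖o 0‖ * ‖a 1‖ := by
    have e1 := ps_zero hv
    have e2 := hvu 0 (by simp)
    rw [e1, ps_zero ho, ps_zero hu] at e2
    rw [e2]
    simp
  have hG := fun (t : ℝ) (h0 : 0 ≤ t) (h1 : t < 1) =>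
    G_bounds hh ha0 hb ha1 ho hob hu hv hvu h0 h1 N
  rw [hd0]
  set A := ‖a 1‖ with hA
  set b := ‖o 0‖ with hbdef
  have hA0 : 0 ≤ A := norm_nonneg _
  have hbn : 0 ≤ b := norm_nonneg _
  have hr2 : 2 * r ^ 2 ≤ 1 := by nlinarith
  have hr1 : r < 1 := by nlinarith
  have h34 : 0 ≤ 3 - 4 * y := by linarith
  have h42 : 0 ≤ 4 * y - 2 := by linarith
  -- sequences
  set x : ℕ → ℝ := fun m => ‖a (m + 1)‖ with hx
  set w : ℕ → ℝ := fun m => ‖d m‖ / ((m : ℝ) + 1) with hw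
  have ew : ∀ m : ℕ, ‖d (m + 1)‖ / ((m : ℝ) + 2) = w (m + 1) := by
    intro m
    simp only [hw]
    push_cast
    ring_nf
  have ex : ∀ m : ℕ, ‖a (m + 2)‖ = x (m + 1) := fun m => rfl
  simp only [ew, ex] at hG ⊢
  rcases le_or_gt A r with hAr | hAr
  · -- case I
    have hS1 : ∑ m ∈ range N, x (m + 1) ^ 2 ≤ 1 - A ^ 2 := by
      apply fin_lim N
      intro t h0 h1
      exact (hG t h0 h1).1.trans (CC_le hA0 ha1 h1)
    have hS2 : ∑ m ∈ range N, w (m + 1) ^ 2 ≤ 1 - (b * A) ^ 2 := by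
      apply fin_lim N
      intro t h0 h1
      exact (hG t h0 h1).2.2.1
    have hbA : b * A ≤ r := (mul_le_of_le_one_left hA0 hb0).trans hAr
    have k1 := case_small hr hr2 hA0 hAr N hS1
    have k2 := case_small hr hr2 (by positivity) hbA N hS2
    have k3 : r * (2 * r) ≤ 3 - 4 * y := by nlinarith [sq_nonneg (1 - 2 * y)]
    have k4 := mul_le_mul_of_nonneg_left k1 hr.le
    have k5 := mul_le_mul_of_nonneg_left k2 hr.le
    have k6 := mul_le_mul_of_nonneg_left (k4.trans k3) h34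
    have k7 := mul_le_mul_of_nonneg_left (k5.trans k3) h42
    nlinarith
  · -- cases II and III
    have hA1 : 0 < A := hr.trans hAr
    have hAr1 : 0 < 1 - A * r := by nlinarith
    have hA2 : 0 < 1 - A ^ 2 := by nlinarith
    set ρ := r / A with hρ
    have hρ0 : 0 < ρ := by positivity
    have hρ1 : ρ < 1 := (div_lt_one hA1).2 hAr
    have hrρ : r ^ 2 < ρ := by
      rw [hρ, lt_div_iff₀ hA1]
      nlinarith
    set τ := A / (1 - A ^ 2) with hτ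
    have hτ0 : 0 < τ := by positivity
    have eC : CC A ρ = (r / A) * (1 - A ^ 2) ^ 2 / (1 - A * r) := by
      unfold CC
      rw [hρ]
      congr 1
      field_simp
    have eD : r ^ 2 / (ρ - r ^ 2) = A * r / (1 - A * r) := by
      have hne : ρ - r ^ 2 ≠ 0 := by
        have : 0 < ρ - r ^ 2 := by linarith
        exact this.ne'
      have e1 : ρ - r ^ 2 = r * (1 - A * r) / A := by
        rw [hρ]; field_simp
      rw [e1]
      field_simp
    -- combination of the two halves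
    have eCD : (τ * CC A ρ + (r ^ 2 / (ρ - r ^ 2)) / τ) / 2 = r * (1 - A ^ 2) / (1 - A * r) := by
      rw [eC, eD, hτ]
      have h1 := hAr1.ne'
      have h2 := hA2.ne'
      field_simp
      ring
    obtain ⟨g1, g2, -, g4⟩ := hG ρ hρ0.le hρ1
    have k1 : ∑ m ∈ range N, x (m + 1) * r ^ (m + 1) ≤ r * (1 - A ^ 2) / (1 - A * r) := by
      have := amgm hρ0 hr.le hrρ hτ0 N g1
      rwa [eCD] at this
    have hf := fM (a := A) hy hAr1
    have hf0 : 0 ≤ 2 * ((1 - A * r) - y) ^ 2 / (1 - A * r) := by positivity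
    have k2 : r * (A + ∑ m ∈ range N, x (m + 1) * r ^ (m + 1)) ≤
        3 - 4 * y - 2 * ((1 - A * r) - y) ^ 2 / (1 - A * r) := by
      rw [← hf]
      have := mul_le_mul_of_nonneg_left k1 hr.le
      have e : r * (r * (1 - A ^ 2) / (1 - A * r)) = r ^ 2 * (1 - A ^ 2) / (1 - A * r) := by
        rw [mul_div_assoc']
        ring_nf
      rw [e] at this
      nlinarith
    rcases le_or_gt (A ^ 2) (3 / 5) with hA35 | hA35
    · -- case II
      have k3 := amgm hρ0 hr.le hrρ hτ0 N g2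
      have k4 : ∑ m ∈ range N, w (m + 1) * r ^ (m + 1) ≤
          τ * (2 / 3 * (1 - b ^ 2) * A ^ 2) / 2 + r * (1 - A ^ 2) / (1 - A * r) := by
        rw [← eCD]
        linarith
      have k5 : b * A + τ * (2 / 3 * (1 - b ^ 2) * A ^ 2) / 2 ≤ A := by
        have e1 : τ * A ≤ 3 / 2 := by
          rw [hτ, div_mul_eq_mul_div, div_le_iff₀ hA2]
          nlinarith
        have e2 : τ * (2 / 3 * (1 - b ^ 2) * A ^ 2) / 2 = (τ * A) * ((1 - b ^ 2) * A / 3) := by ring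
        have e3 : (τ * A) * ((1 - b ^ 2) * A / 3) ≤ 3 / 2 * ((1 - b ^ 2) * A / 3) := by
          apply mul_le_mul_of_nonneg_right e1
          have : 0 ≤ 1 - b ^ 2 := by nlinarith
          positivity
        rw [e2]
        nlinarith [mul_nonneg (mul_nonneg hA0 (by linarith : 0 ≤ 1 - b)) (by linarith : 0 ≤ 1 - b)]
      have k6 : r * (b * A + ∑ m ∈ range N, w (m + 1) * r ^ (m + 1)) ≤
          3 - 4 * y - 2 * ((1 - A * r) - y) ^ 2 / (1 - A * r) := by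
        rw [← hf]
        have k7 : b * A + ∑ m ∈ range N, w (m + 1) * r ^ (m + 1) ≤
            A + r * (1 - A ^ 2) / (1 - A * r) := by linarith
        have := mul_le_mul_of_nonneg_left k7 hr.le
        have e : r * (r * (1 - A ^ 2) / (1 - A * r)) = r ^ 2 * (1 - A ^ 2) / (1 - A * r) := by
          rw [mul_div_assoc']
          ring_nf
        rw [mul_add, mul_add r A, e] at this
        nlinarith
      have k8 := mul_le_mul_of_nonneg_left (k2.trans (sub_le_self _ hf0)) h34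
      have k9 := mul_le_mul_of_nonneg_left (k6.trans (sub_le_self _ hf0)) h42
      nlinarith
    · -- case III
      have hA77 : 7745 / 10000 ≤ A := by
        by_contra hcon
        push Not at hcon
        nlinarith
      set e : ℕ → ℝ := fun m => ‖d m - a 1 * o m‖ / ((m : ℝ) + 1) with he
      have ee : ∀ m : ℕ, ‖d (m + 1) - a 1 * o (m + 1)‖ / ((m : ℝ) + 2) = e (m + 1) := by
        intro m
        simp only [he]
        push_cast
        ring_nf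
      simp only [ee] at g4
      have k3 := amgm hρ0 hr.le hrρ hτ0 N g4
      rw [eCD] at k3
      have k4 : ∀ m : ℕ, w (m + 1) * r ^ (m + 1) ≤
          A * (1 - b ^ 2) * (r ^ (m + 1) / ((m : ℝ) + 2)) + e (m + 1) * r ^ (m + 1) := by
        intro m
        have h1 : ‖d (m + 1)‖ ≤ ‖a 1 * o (m + 1)‖ + ‖d (m + 1) - a 1 * o (m + 1)‖ := by
          have := norm_add_le (a 1 * o (m + 1)) (d (m + 1) - a 1 * o (m + 1))
          simpa using this
        have h2 : ‖o (m + 1)‖ ≤ 1 - b ^ 2 := coef_bd ho hob (m + 1) (by omega)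
        have h3 : ‖d (m + 1)‖ ≤ A * (1 - b ^ 2) + ‖d (m + 1) - a 1 * o (m + 1)‖ := by
          rw [norm_mul] at h1
          have := mul_le_mul_of_nonneg_left h2 hA0
          linarith
        rw [← ew, ← ee]
        have hm : (0:ℝ) < (m : ℝ) + 2 := by positivity
        have h4 : ‖d (m + 1)‖ / ((m : ℝ) + 2) ≤
            A * (1 - b ^ 2) / ((m : ℝ) + 2) + ‖d (m + 1) - a 1 * o (m + 1)‖ / ((m : ℝ) + 2) := by
          rw [← add_div]
          exact div_le_div_of_nonneg_right h3 hm.le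
        have h5 := mul_le_mul_of_nonneg_right h4 (by positivity : 0 ≤ r ^ (m + 1))
        refine h5.trans (le_of_eq ?_)
        ring
      have k5 : ∑ m ∈ range N, w (m + 1) * r ^ (m + 1) ≤
          A * (1 - b ^ 2) * LL r + r * (1 - A ^ 2) / (1 - A * r) := by
        calc ∑ m ∈ range N, w (m + 1) * r ^ (m + 1)
            ≤ ∑ m ∈ range N, (A * (1 - b ^ 2) * (r ^ (m + 1) / ((m : ℝ) + 2))
              + e (m + 1) * r ^ (m + 1)) := Finset.sum_le_sum fun m _ => k4 m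
          _ = A * (1 - b ^ 2) * ∑ m ∈ range N, r ^ (m + 1) / ((m : ℝ) + 2)
              + ∑ m ∈ range N, e (m + 1) * r ^ (m + 1) := by
              rw [Finset.sum_add_distrib, Finset.mul_sum]
          _ ≤ _ := by
              have h1 : 0 ≤ A * (1 - b ^ 2) := mul_nonneg hA0 (by nlinarith)
              have h2 := mul_le_mul_of_nonneg_left (sum_le_LL hr.le hr1 N) h1
              linarith
      have k6 := one_var hr hy hy0 hA77 ha1.le hbn hb0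
      -- divide by `1 - A r`
      have k7 : (4 * y - 2) * (A * r) * (b + (1 - b ^ 2) * LL r - 1) ≤
          2 * ((1 - A * r) - y) ^ 2 / (1 - A * r) := by
        rw [le_div_iff₀ hAr1]
        exact k6
      have k8 : r * (b * A + ∑ m ∈ range N, w (m + 1) * r ^ (m + 1)) ≤
          3 - 4 * y - 2 * ((1 - A * r) - y) ^ 2 / (1 - A * r)
            + (A * r) * (b + (1 - b ^ 2) * LL r - 1) := by
        rw [← hf]
        have := mul_le_mul_of_nonneg_left k5 hr.le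
        have e : r * (r * (1 - A ^ 2) / (1 - A * r)) = r ^ 2 * (1 - A ^ 2) / (1 - A * r) := by
          rw [mul_div_assoc']
          ring_nf
        rw [mul_add, e] at this
        nlinarith
      have k9 := mul_le_mul_of_nonneg_left k2 h34
      have k10 := mul_le_mul_of_nonneg_left k8 h42
      nlinarith

end Pool.Agent.H422Bohr
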